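import Pool.Agent.MWI.StmtsE

/-!
# Row BAS of squad MWI
-/

set_option autoImplicit false

namespace Pool.Agent.MWI.H13

open Pool.Agent.Helper14_MV Pool.Agent.Helper2_MV Pool.Agent.MWF Pool.Agent.MWI

theorem mem_pl {L : List ℕ} {c : ℕ} (h : c ∈ pl L) : c % 3 ≠ 0 := by
  unfold pl at h
  rw [List.mem_flatMap] at h
  obtain ⟨i, _, h⟩ := h
  simp only [List.mem_cons, List.not_mem_nil, or_false] at h
  omega

theorem mem_pr {L : List ℕ} {c : ℕ} (h : c ∈ pr L) : c % 3 ≠ 0 := by
  unfold pr at h
  rw [List.mem_flatMap] at h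
  obtain ⟨i, _, h⟩ := h
  simp only [List.mem_cons, List.not_mem_nil, or_false] at h
  omega

theorem mem_zz {L : List ℕ} {c : ℕ} (h : c ∈ zz L) : c % 3 = 2 := by
  unfold zz at h
  rw [List.mem_map] at h
  obtain ⟨i, _, h⟩ := h
  omega

theorem nz_pl (L : List ℕ) : (pl L).filter nz = pl L := by
  rw [List.filter_eq_self]
  intro c hc
  unfold nz
  exact decide_eq_true (mem_pl hc)

theorem nz_pr (L : List ℕ) : (pr L).filter nz = pr L := by
  rw [List.filter_eq_self]
  intro c hc
  unfold nz
  exact decide_eq_true (mem_pr hc)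

/-- the filter of the condition `one` -/
def f1 (j : ℕ) (c : ℕ) : Bool := decide (c = 3 * j ∨ c % 3 = 1)

theorem f1_pl (j : ℕ) (L : List ℕ) : (pl L).filter (f1 j) = ts L := by
  unfold pl ts
  induction L with
  | nil => rfl
  | cons i L ih =>
    rw [List.flatMap_cons, List.filter_append, ih, List.map_cons]
    have h1 : f1 j (3 * i + 2) = false := by
      unfold f1
      exact decide_eq_false (by omega)
    have h2 : f1 j (3 * i + 1) = true := by
      unfold f1
      exact decide_eq_true (Or.inr (by omega))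
    rw [List.filter_cons_of_neg (by rw [h1]; exact Bool.false_ne_true),
      List.filter_cons_of_pos h2]
    rfl

theorem f1_pr (j : ℕ) (L : List ℕ) : (pr L).filter (f1 j) = ts L := by
  unfold pr ts
  induction L with
  | nil => rfl
  | cons i L ih =>
    rw [List.flatMap_cons, List.filter_append, ih, List.map_cons]
    have h1 : f1 j (3 * i + 2) = false := by
      unfold f1
      exact decide_eq_false (by omega)
    have h2 : f1 j (3 * i + 1) = true := by
      unfold f1
      exact decide_eq_true (Or.inr (by omega))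
    rw [List.filter_cons_of_pos h2,
      List.filter_cons_of_neg (by rw [h1]; exact Bool.false_ne_true)]
    rfl

theorem f1_zz (j : ℕ) (L : List ℕ) : (zz L).filter (f1 j) = [] := by
  rw [List.filter_eq_nil_iff]
  intro c hc
  have h1 := mem_zz hc
  unfold f1
  rw [decide_eq_true_eq]
  omega

theorem f1_MM (mmf : MmfStmt) (m : ℕ) (s e : Bool) {j : ℕ} (hj : j < 3) :
    (MM m s (nm e 0) (nm e 1) (nm e 2)).filter (f1 j) = [3 * j, 3 * j] := by
  have hp := (mmf m s e).1.filter (f1 j)
  have h1 : (0 :: 0 :: 3 :: 3 :: 6 :: 6 :: zz (idx m)).filter (f1 j) =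
      List.replicate 2 (3 * j) := by
    have e1 : (0 :: 0 :: 3 :: 3 :: 6 :: 6 :: zz (idx m)) =
        [0, 0, 3, 3, 6, 6] ++ zz (idx m) := rfl
    rw [e1, List.filter_append, f1_zz, List.append_nil]
    obtain h | h | h : j = 0 ∨ j = 1 ∨ j = 2 := by omega
    · subst h
      decide
    · subst h
      decide
    · subst h
      decide
  rw [h1] at hp
  exact List.perm_replicate.1 hp

theorem proj (pjs : PjsStmt) (P Q : List ℕ) (m : ℕ) (s e : Bool) {j k : ℕ} (hk : k < 7) :
    (uu P Q m s e).flatMap (pj j k) =
      pl P ++ ((MM m s (nm e 0) (nm e 1) (nm e 2)).flatMap (pj j k) ++ pr Q) := by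
  obtain ⟨h1, h2, h3, -⟩ := pjs P Q m j k hk
  unfold uu
  rw [List.flatMap_append, List.flatMap_append, List.flatMap_append, h1, h2, h3]
  by_cases h : k = 3
  · rw [if_pos h, if_pos h, List.nil_append]
  · rw [if_neg h, if_neg h, List.append_nil]

theorem head_ne {h C : List ℕ} {m : ℕ} (hm : 1 ≤ m) (hp : h.Perm (List.range m)) :
    ∃ a l, zz h ++ 0 :: C = a :: l ∧ a % 3 = 2 := by
  rcases h with _ | ⟨h0, h'⟩
  · have := hp.length_eq
    rw [List.length_range, List.length_nil] at this
    omega
  · exact ⟨3 * h0 + 2, zz h' ++ 0 :: C, rfl, by omega⟩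

theorem bas (pjs : PjsStmt) (mmf : MmfStmt) (thx : ThxStmt) (_cvf : CvfStmt) : BasStmt := by
  intro β P Q m hH s e
  obtain ⟨hpM, hnzM, hroles, -⟩ := mmf m s e
  refine ⟨?_, ?_, ?_, ?_⟩
  · intro c hc h0
    unfold uu at hc
    rw [List.mem_append, List.mem_append, List.mem_append] at hc
    rcases hc with hc | hc | hc | hc
    · exact absurd h0 (mem_pl hc)
    · have h1 := hpM.mem_iff.1 hc
      simp only [List.mem_cons] at h1
      rcases h1 with h1 | h1 | h1 | h1 | h1 | h1 | h1
      · exact Or.inl h1
      · exact Or.inl h1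
      · exact Or.inr (Or.inl h1)
      · exact Or.inr (Or.inl h1)
      · exact Or.inr (Or.inr h1)
      · exact Or.inr (Or.inr h1)
      · have := mem_zz h1
        omega
    · exact absurd h0 (mem_pr hc)
    · exact absurd h0 (mem_pr hc)
  · have e1 : (uu P Q m s e).filter nz = sk P Q m := by
      unfold uu sk
      rw [List.filter_append, List.filter_append, List.filter_append, nz_pl, nz_pr, nz_pr, hnzM]
    rw [e1]
    exact RR.refl _
  · intro j hj
    have e1 : (uu P Q m s e).filter (f1 j) =
        ts (stL P) ++ 3 * j :: 3 * j :: (ts (stQ Q) ++ ts (st3 Q)) := by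
      unfold uu
      rw [List.filter_append, List.filter_append, List.filter_append, f1_pl, f1_pr, f1_pr,
        f1_MM mmf m s e hj]
      rfl
    have e2 : (uu P Q m s e).filter (fun c => decide (c = 3 * j ∨ c % 3 = 1)) =
        ts (stL P) ++ 3 * j :: 3 * j :: (ts (stQ Q) ++ ts (st3 Q)) := e1
    rw [e2]
    exact RR.refl _
  · intro j hj k hk
    obtain ⟨-, -, hcv⟩ := hroles j hj
    obtain ⟨ht, hf⟩ := hcv k hk
    rw [proj pjs P Q m s e hk]
    constructor
    · intro hinc
      by_contra hne
      have hfalse : cv s (rl e j) k = false := by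
        rcases Bool.eq_false_or_eq_true (cv s (rl e j) k) with h | h
        · exact absurd h hne
        · exact h
      obtain ⟨h, C, hh, -, -, -, hw⟩ := (thx β P Q m hH).2 _ hinc
      have hw' := List.append_cancel_left hw
      obtain ⟨a, l, hal, ha⟩ := head_ne (C := C) hH.one hh
      rw [hal] at hw'
      rcases hf hfalse with hE | hE
      · rw [hE] at hw'
        simp only [List.cons_append, List.cons.injEq] at hw'
        omega
      · rw [hE] at hw'
        obtain ⟨m', rfl⟩ : ∃ m', m = m' + 1 := ⟨m - 1, by have := hH.one; omega⟩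
        rw [List.range_succ_eq_map] at hw'
        simp only [zz, List.map_cons, List.cons_append, List.cons.injEq] at hw'
        omega
    · intro h
      rw [ht h]
      refine ⟨0, 0, ?_⟩
      have e1 : pl P ++ (0 :: (zz (List.range m) ++ [0]) ++ pr Q) = ww P Q (List.range m) := by
        unfold ww
        rw [List.cons_append, List.append_assoc]
        rfl
      rw [e1]
      exact RR.refl _

end Pool.Agent.MWI.H13
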