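import Pool.Agent.MWI.StmtsE
import Pool.Agent.Helper13_MWI.BAS

/-!
# Row FCT of squad MWI
-/

set_option autoImplicit false

namespace Pool.Agent.MWI.H13

open Pool.Agent.Helper14_MV Pool.Agent.Helper2_MV Pool.Agent.MWF Pool.Agent.MWI

/-- the projection to the copy `k` without the names -/
def pz (k : ℕ) (c : ℕ) : List ℕ :=
  if c % 3 = 0 then [] else if (c / 3) % 7 = k then [3 * (c / 3 / 7) + c % 3] else []

theorem pj_name {j k c : ℕ} (h : c % 3 = 0) (hn : c ≠ 3 * j) : pj j k c = [] := by
  unfold pj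
  rw [if_pos h, if_neg hn]

theorem pj_self (j k : ℕ) : pj j k (3 * j) = [0] := by
  unfold pj
  rw [if_pos (by omega), if_pos rfl]

theorem pz_name {k c : ℕ} (h : c % 3 = 0) : pz k c = [] := by
  unfold pz
  rw [if_pos h]

theorem pj_pz {j k c : ℕ} (h : c % 3 ≠ 0) : pj j k c = pz k c := by
  unfold pj pz
  rw [if_neg h, if_neg h]

theorem pz_other {k c : ℕ} (h : (c / 3) % 7 ≠ k) : pz k c = [] := by
  unfold pz
  by_cases h1 : c % 3 = 0
  · rw [if_pos h1]
  · rw [if_neg h1, if_neg h]

theorem split_unique {x : ℕ} : ∀ {A a G b : List ℕ}, x ∉ A → x ∉ a →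
    A ++ x :: G = a ++ x :: b → A = a ∧ G = b := by
  intro A
  induction A with
  | nil =>
    intro a G b _ ha h
    rcases a with _ | ⟨c, a⟩
    · simp only [List.nil_append, List.cons.injEq, true_and] at h
      exact ⟨rfl, h⟩
    · simp only [List.nil_append, List.cons_append, List.cons.injEq] at h
      exact absurd (by rw [h.1]; exact List.mem_cons_self) ha
  | cons d A ih =>
    intro a G b hA ha h
    rcases a with _ | ⟨c, a⟩
    · simp only [List.nil_append, List.cons_append, List.cons.injEq] at h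
      exact absurd (by rw [← h.1]; exact List.mem_cons_self) hA
    · simp only [List.cons_append, List.cons.injEq] at h
      have h1 := ih (fun hx => hA (List.mem_cons_of_mem _ hx))
        (fun hx => ha (List.mem_cons_of_mem _ hx)) h.2
      exact ⟨by rw [h.1, h1.1], h1.2⟩

theorem not_mem_split {x : ℕ} {A G B : List ℕ}
    (h : (A ++ x :: (G ++ x :: B)).count x = 2) : x ∉ A ∧ x ∉ G ∧ x ∉ B := by
  rw [List.count_append, List.count_cons_self, List.count_append, List.count_cons_self] at h
  refine ⟨?_, ?_, ?_⟩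
  · apply List.count_eq_zero.1
    omega
  · apply List.count_eq_zero.1
    omega
  · apply List.count_eq_zero.1
    omega

/-- letters of the main block -/
theorem mem_M {M : List ℕ} {m : ℕ} (pM : M.Perm (0 :: 0 :: 3 :: 3 :: 6 :: 6 :: zz (idx m)))
    {c : ℕ} (hc : c ∈ M) : c % 3 = 0 ∨ ∃ E ∈ idx m, c = 3 * E + 2 := by
  have h1 := pM.mem_iff.1 hc
  simp only [List.mem_cons] at h1
  rcases h1 with h1 | h1 | h1 | h1 | h1 | h1 | h1
  · left; omega
  · left; omega
  · left; omega
  · left; omega
  · left; omega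
  · left; omega
  · right
    unfold zz at h1
    rw [List.mem_map] at h1
    obtain ⟨E, hE, h2⟩ := h1
    exact ⟨E, hE, h2.symm⟩

theorem count_name {M : List ℕ} {m : ℕ}
    (pM : M.Perm (0 :: 0 :: 3 :: 3 :: 6 :: 6 :: zz (idx m))) {j : ℕ} (hj : j < 3) :
    M.count (3 * j) = 2 := by
  rw [pM.count_eq]
  have hz : (zz (idx m)).count (3 * j) = 0 := by
    rw [List.count_eq_zero]
    intro h
    have := mem_zz h
    omega
  have e1 : (0 :: 0 :: 3 :: 3 :: 6 :: 6 :: zz (idx m)) = [0, 0, 3, 3, 6, 6] ++ zz (idx m) := rfl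
  rw [e1, List.count_append, hz]
  obtain h | h | h : j = 0 ∨ j = 1 ∨ j = 2 := by omega
  · subst h
    decide
  · subst h
    decide
  · subst h
    decide

theorem count_z {M : List ℕ} {m : ℕ}
    (pM : M.Perm (0 :: 0 :: 3 :: 3 :: 6 :: 6 :: zz (idx m))) (hn : (idx m).Nodup) {E : ℕ}
    (hE : E ∈ idx m) : M.count (3 * E + 2) = 1 := by
  rw [pM.count_eq]
  have e1 : (0 :: 0 :: 3 :: 3 :: 6 :: 6 :: zz (idx m)) = [0, 0, 3, 3, 6, 6] ++ zz (idx m) := rfl
  have h1 : (zz (idx m)).count (3 * E + 2) = 1 := by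
    have h2 : (zz (idx m)).Nodup := by
      unfold zz
      exact hn.map (fun a b h => by simpa using h)
    apply List.count_eq_one_of_mem h2
    unfold zz
    exact List.mem_map.2 ⟨E, hE, rfl⟩
  have h3 : ([0, 0, 3, 3, 6, 6] : List ℕ).count (3 * E + 2) = 0 := by
    rw [List.count_eq_zero]
    intro h
    simp only [List.mem_cons, List.not_mem_nil, or_false] at h
    omega
  rw [e1, List.count_append, h1, h3]

/-- the projection of the main block if the name goes around the copy -/
theorem proj_M {M : List ℕ} {m k j : ℕ} (hm : 1 ≤ m) (hj : j < 3) (_hk : k < 7)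
    (pM : M.Perm (0 :: 0 :: 3 :: 3 :: 6 :: 6 :: zz (idx m))) (hn : (idx m).Nodup)
    (hidx : ∀ E, E ∈ idx m ↔ E < 7 * m)
    (hb : ∀ i < m, MVD.Btw (3 * j) (3 * (7 * i + k) + 2) M) :
    M.flatMap (pj j k) = 0 :: (M.flatMap (pz k) ++ [0]) := by
  obtain ⟨A, G, B, hM, -⟩ := hb 0 hm
  have hc := count_name pM hj
  have hc0 := hc
  rw [hM] at hc0
  obtain ⟨hA, hG, hB⟩ := not_mem_split hc0
  have hzG : ∀ i < m, 3 * (7 * i + k) + 2 ∈ G := by
    intro i hi
    obtain ⟨a, b, c, hM', hz⟩ := hb i hi
    have hc1 := hc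
    rw [hM'] at hc1
    obtain ⟨ha, hb', hc'⟩ := not_mem_split hc1
    have h1 : A ++ 3 * j :: (G ++ 3 * j :: B) = a ++ 3 * j :: (b ++ 3 * j :: c) := by
      rw [← hM, hM']
    obtain ⟨-, h2⟩ := split_unique hA ha h1
    obtain ⟨h3, -⟩ := split_unique hG hb' h2
    rw [h3]
    exact hz
  have hz1 : ∀ i < m, M.count (3 * (7 * i + k) + 2) = 1 := by
    intro i hi
    exact count_z pM hn ((hidx _).2 (by omega))
  have hout : ∀ i < m, 3 * (7 * i + k) + 2 ∉ A ∧ 3 * (7 * i + k) + 2 ∉ B := by
    intro i hi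
    have h1 := hz1 i hi
    have h2 := List.count_pos_iff.2 (hzG i hi)
    rw [hM, List.count_append, List.count_cons, List.count_append, List.count_cons] at h1
    constructor
    · apply List.count_eq_zero.1
      omega
    · apply List.count_eq_zero.1
      omega
  have hnil : ∀ L : List ℕ, (∀ c ∈ L, c ∈ M) → 3 * j ∉ L →
      (∀ i < m, 3 * (7 * i + k) + 2 ∉ L) → L.flatMap (pj j k) = [] ∧ L.flatMap (pz k) = [] := by
    intro L hL hx hz
    constructor
    · rw [List.flatMap_eq_nil_iff]
      intro c hc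
      rcases mem_M pM (hL c hc) with h1 | ⟨E, hE, h1⟩
      · exact pj_name h1 (fun h => hx (h ▸ hc))
      · rw [pj_pz (by omega)]
        apply pz_other
        intro h2
        have h3 := (hidx E).1 hE
        apply hz (E / 7) (by omega)
        have h4 : 3 * (7 * (E / 7) + k) + 2 = c := by omega
        rw [h4]
        exact hc
    · rw [List.flatMap_eq_nil_iff]
      intro c hc
      rcases mem_M pM (hL c hc) with h1 | ⟨E, hE, h1⟩
      · exact pz_name h1
      · apply pz_other
        intro h2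
        have h3 := (hidx E).1 hE
        apply hz (E / 7) (by omega)
        have h4 : 3 * (7 * (E / 7) + k) + 2 = c := by omega
        rw [h4]
        exact hc
  have hAn := hnil A (fun c hc => by rw [hM]; exact List.mem_append_left _ hc) hA
    (fun i hi => (hout i hi).1)
  have hBn := hnil B (fun c hc => by
    rw [hM]
    exact List.mem_append_right _ (List.mem_cons_of_mem _
      (List.mem_append_right _ (List.mem_cons_of_mem _ hc)))) hB (fun i hi => (hout i hi).2)
  have hGe : ∀ L : List ℕ, 3 * j ∉ L → L.flatMap (pj j k) = L.flatMap (pz k) := by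
    intro L
    induction L with
    | nil => intro _; rfl
    | cons c L ih =>
      intro hx
      rw [List.flatMap_cons, List.flatMap_cons, ih (fun h => hx (List.mem_cons_of_mem _ h))]
      by_cases h0 : c % 3 = 0
      · rw [pz_name h0, pj_name h0 (fun h => hx (h ▸ List.mem_cons_self))]
      · rw [pj_pz h0]
  have e1 : M.flatMap (pz k) = G.flatMap (pz k) := by
    rw [hM, List.flatMap_append, List.flatMap_cons, List.flatMap_append, List.flatMap_cons,
      hAn.2, hBn.2, pz_name (show 3 * j % 3 = 0 by omega)]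
    simp
  have e2 : M.flatMap (pj j k) = 0 :: (G.flatMap (pz k) ++ [0]) := by
    rw [hM, List.flatMap_append, List.flatMap_cons, List.flatMap_append, List.flatMap_cons,
      hAn.1, hBn.1, pj_self, hGe G hG]
    simp
  rw [e1, e2]

/-- the projection of the right part -/
theorem proj_Y {j k : ℕ} : ∀ Y : List ℕ, (∀ c ∈ Y, c % 3 = 0 ∨ (c / 3) % 7 ≠ k) →
    Y.flatMap (pj j k) = List.replicate (Y.count (3 * j)) 0 := by
  intro Y
  induction Y with
  | nil => intro _; rfl
  | cons c Y ih =>
    intro h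
    rw [List.flatMap_cons, ih (fun d hd => h d (List.mem_cons_of_mem _ hd))]
    by_cases h1 : c = 3 * j
    · subst h1
      rw [pj_self, List.count_cons_self, List.replicate_succ]
      rfl
    · have h2 : pj j k c = [] := by
        rcases h c List.mem_cons_self with h3 | h3
        · exact pj_name h3 h1
        · by_cases h0 : c % 3 = 0
          · exact pj_name h0 h1
          · rw [pj_pz h0]
            exact pz_other h3
      rw [h2, List.count_cons_of_ne h1]
      rfl

theorem rep_shuffle (X : List ℕ) (a b c : ℕ) :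
    X ++ List.replicate a 0 ++ List.replicate (b + c) 0 =
      X ++ List.replicate b 0 ++ List.replicate c 0 ++ List.replicate a 0 := by
  rw [List.append_assoc, List.append_assoc (X ++ _), List.append_assoc X, ← List.replicate_add,
    ← List.replicate_add, ← List.replicate_add]
  have e : a + (b + c) = b + (c + a) := by omega
  rw [e]

theorem role_surj : ∀ e : Bool, ∀ i < 3, ∃ j < 3, rl e j = i := by
  intro e i hi
  obtain h | h | h : i = 0 ∨ i = 1 ∨ i = 2 := by omega
  · subst h
    cases e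
    · exact ⟨0, by omega, rfl⟩
    · exact ⟨1, by omega, rfl⟩
  · subst h
    cases e
    · exact ⟨1, by omega, rfl⟩
    · exact ⟨0, by omega, rfl⟩
  · subst h
    cases e
    · exact ⟨2, by omega, rfl⟩
    · exact ⟨2, by omega, rfl⟩

theorem fct (fc1 : Fc1Stmt) (pjs : PjsStmt) (cvf : CvfStmt) (_mmf : MmfStmt) : FctStmt := by
  intro β P Q m hH s e w hS
  obtain ⟨M, Y, hw, tM, pM, hY, fY, nY, hcv⟩ := fc1 β P Q m hH s e w hS
  refine ⟨M, Y, ⟨hw, tM, pM, hY, fY, nY, hcv, ?_⟩⟩
  intro j hj k hk hf
  by_contra hcon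
  have hall : ∀ i < m, MVD.Btw (3 * j) (3 * (7 * i + k) + 2) M := by
    intro i hi
    by_contra h
    exact hcon ⟨i, hi, h⟩
  obtain ⟨c1, c2, -, c4, -⟩ := cvf
  have hk3 : k ≠ 3 := by
    intro h
    subst h
    have h1 := (c1 s (rl e j) (c4 e j hj).1).1
    rw [h1] at hf
    exact Bool.noConfusion hf
  obtain ⟨i', hi', hci'⟩ := c2 s k hk
  obtain ⟨j', hj', hji⟩ := role_surj e i' hi'
  rw [← hji] at hci'
  obtain ⟨-, -, -, -, -, hnod, hidx⟩ := pjs P Q m j k hk
  have hpl : ∀ j0, (pl (stL P)).flatMap (pj j0 k) = pl P := fun j0 => (pjs P Q m j0 k hk).1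
  have hpr : ∀ j0, (pr (stQ Q)).flatMap (pj j0 k) = pr Q := by
    intro j0
    rw [(pjs P Q m j0 k hk).2.1, if_neg hk3]
  have hYc : ∀ c ∈ Y, c % 3 = 0 ∨ (c / 3) % 7 ≠ k := by
    intro c hc
    by_cases h0 : c % 3 = 0
    · exact Or.inl h0
    · right
      have h1 : c ∈ Y.filter nz := List.mem_filter.2 ⟨hc, by unfold nz; exact decide_eq_true h0⟩
      rw [fY] at h1
      unfold pr st3 at h1
      rw [List.mem_flatMap] at h1
      obtain ⟨E, hE, h2⟩ := h1
      rw [List.mem_map] at hE
      obtain ⟨i, -, hi⟩ := hE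
      simp only [List.mem_cons, List.not_mem_nil, or_false] at h2
      omega
  have hv : ∀ j0 < 3, (∀ i < m, MVD.Btw (3 * j0) (3 * (7 * i + k) + 2) M) →
      w.flatMap (pj j0 k) = (pl P ++ (0 :: (M.flatMap (pz k) ++ [0]) ++ pr Q)) ++
        List.replicate (Y.count (3 * j0)) 0 := by
    intro j0 hj0 hb
    rw [hw, List.flatMap_append, List.flatMap_append, List.flatMap_append, hpl, hpr,
      proj_M hH.one hj0 hk pM hnod hidx hb, proj_Y Y hYc]
    simp only [List.append_assoc]
  have h1 := hv j hj hall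
  have h2 := hv j' hj' (hcv j' hj' k hk hci')
  obtain ⟨a', b', hinc⟩ := (hS.cov j' hj' k hk).2 hci'
  have hinc2 : Inc β P Q m (w.flatMap (pj j k)) := by
    refine ⟨Y.count (3 * j') + a', b' + Y.count (3 * j), ?_⟩
    have h3 := hinc.append (RR.refl (β := β) (List.replicate (Y.count (3 * j)) 0))
    rw [h2] at h3
    rw [h1]
    have e1 : (pl P ++ (0 :: (M.flatMap (pz k) ++ [0]) ++ pr Q)) ++
        List.replicate (Y.count (3 * j)) 0 ++ List.replicate (Y.count (3 * j') + a') 0 =
        (pl P ++ (0 :: (M.flatMap (pz k) ++ [0]) ++ pr Q)) ++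
        List.replicate (Y.count (3 * j')) 0 ++ List.replicate a' 0 ++
          List.replicate (Y.count (3 * j)) 0 := by
      exact rep_shuffle _ _ _ _
    have e2 : ww P Q (List.range m) ++ List.replicate (b' + Y.count (3 * j)) 0 =
        ww P Q (List.range m) ++ List.replicate b' 0 ++ List.replicate (Y.count (3 * j)) 0 := by
      rw [List.append_assoc, ← List.replicate_add]
    rw [e1, e2]
    exact h3
  have h4 := (hS.cov j hj k hk).1 hinc2
  rw [h4] at hf
  exact Bool.noConfusion hf

end Pool.Agent.MWI.H13
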